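import Pool.Agent.MP_00906f_gt.H91.Main
import Pool.Agent.MP_00906f_gt.H91.Exact
import Pool.Agent.MP_00906f_gt.H33E.Desc
import Pool.Agent.MP_00906f_gt.H33E.H4
import Pool.Agent.MP_00906f_gt.H33E.HL
import Pool.Agent.MP_00906f_gt.H33E.Indep
import Pool.Agent.MP_00906f_gt.H33E.Lab
import Pool.Agent.MP_00906f_gt.H33E.MeyA
import Pool.Agent.MP_00906f_gt.H33E.MeyB
import Pool.Agent.MP_00906f_gt.H33E.Span
import Pool.Agent.MP_00906f_gt.H33E.Ssyt
import Pool.Agent.MP_00906f_gt.H33E.Zar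
import Pool.Agent.MP_00906f_gt.H33G.Low3
import Pool.Agent.MP_00906f_gt.H33U.FIN
import Pool.Agent.MP_00906f_gt.H46C.Up

/-! The abelianisation of the hyperelliptic Torelli group is finitely generated in genus at
least three, and its rank in every such genus. -/

namespace Pool.Agent.Results.MP_00906f_gt.TorelliRank

open Pool.Agent.MP_00906f_gt

theorem result (g : ℕ) (hg : 3 ≤ g) :
    ∃ ρ : HT.HypMCG g →* Equiv.Perm (HT.Hom1 g),
      HT.IsHomologyAction g ρ ∧ Group.FG (Abelianization ρ.ker) ∧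
        (Module.finrank ℤ (Additive (Abelianization ρ.ker)) : ℚ) =
          if g = 3 then 614
          else (20 * (g : ℚ) ^ 4 + 36 * (g : ℚ) ^ 3 - 5 * (g : ℚ) ^ 2 - 9 * (g : ℚ) - 6) / 6 := by
  by_cases h4 : 4 ≤ g
  · obtain ⟨ρ, h1, h2, h3⟩ := H91.exact H91.upper H33E.sH4 (H33E.sHL H33E.sLab)
      (H33E.sMey H33E.sMeyA) H33E.sDesc H33E.sLab H33E.sSpan
      (H33E.sIndep H33E.sZar H33E.sSsyt H33E.sChi) H33E.sCard g h4
    refine ⟨ρ, h1, h2, ?_⟩
    have h5 := congrArg (Nat.cast : ℕ → ℚ) h3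
    push_cast at h5
    rw [if_neg (by omega)]
    linarith
  · obtain rfl : g = 3 := by omega
    obtain ⟨ρ, h1, h2, h3⟩ := H33G.exact3 (H33U.fin3 fun _ _ _ _ _ _ _ D => H46C.up D)
    refine ⟨ρ, h1, h2, ?_⟩
    rw [if_pos rfl, h3]
    norm_num

end Pool.Agent.Results.MP_00906f_gt.TorelliRank
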